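import Pool.Agent.N266.TI.Stm

/-!
# TI/MV2i: Harnack type estimates from the mean value identity
-/

set_option autoImplicit false

namespace Pool.Agent.N596.TI

open MeasureTheory Metric Set
open scoped ENNReal Pointwise ContDiff
open Pool.Agent.N266.TI

variable {n : ℕ}

lemma cpt {σ : E n → ℝ} (h : ∀ z, 1 ≤ ‖z‖ → σ z = 0) : HasCompactSupport σ :=
  HasCompactSupport.intro (isCompact_closedBall (0 : E n) 1) fun z hz => by
    rw [mem_closedBall_zero_iff, not_le] at hz
    exact h z hz.le

/-- bound of a kernel integral -/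
lemma inner_le {T : E n → ℝ} (hTc : Continuous T) (hT0 : ∀ z, 0 ≤ T z)
    (hT1 : ∀ z, 1 ≤ ‖z‖ → T z = 0) {g : E n → ℝ} {x : E n} {r τ t : ℝ} (hr : 0 < r) (hτ : 0 ≤ τ)
    (hg : ∀ y ∈ closedBall x r, g y ≤ τ) (ht0 : 0 ≤ t) (ht1 : t ≤ 1) :
    ∫ z, g (x - (t * r) • z) * T z ≤ τ * ∫ z, T z := by
  have hTi : Integrable T := hTc.integrable_of_hasCompactSupport (cpt hT1)
  have hS : 0 ≤ ∫ z, T z := integral_nonneg hT0
  by_cases hi : Integrable (fun z => g (x - (t * r) • z) * T z)
  · rw [← integral_const_mul]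
    refine integral_mono hi (hTi.const_mul τ) fun z => ?_
    show g (x - (t * r) • z) * T z ≤ τ * T z
    by_cases hz : 1 ≤ ‖z‖
    · rw [hT1 z hz]; simp
    · push Not at hz
      refine mul_le_mul_of_nonneg_right (hg _ ?_) (hT0 z)
      rw [mem_closedBall, dist_eq_norm, sub_sub_cancel_left, norm_neg, norm_smul, Real.norm_eq_abs,
        abs_of_nonneg (by positivity)]
      calc t * r * ‖z‖ ≤ 1 * r * 1 := by gcongr
        _ = r := by ring
  · rw [integral_undef hi]; positivity

lemma outer_le {T : E n → ℝ} (hTc : Continuous T) (hT0 : ∀ z, 0 ≤ T z)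
    (hT1 : ∀ z, 1 ≤ ‖z‖ → T z = 0) {g : E n → ℝ} {x : E n} {r τ : ℝ} (hr : 0 < r) (hτ : 0 ≤ τ)
    (hg : ∀ y ∈ closedBall x r, g y ≤ τ) :
    ∫ t in (0 : ℝ)..1, t * ∫ z, g (x - (t * r) • z) * T z ≤ τ * ∫ z, T z := by
  have hS : 0 ≤ ∫ z, T z := integral_nonneg hT0
  have hC : 0 ≤ τ * ∫ z, T z := by positivity
  by_cases hi : IntervalIntegrable (fun t : ℝ => t * ∫ z, g (x - (t * r) • z) * T z) volume 0 1
  · have h1 := intervalIntegral.integral_mono_on (zero_le_one) hi
      (intervalIntegrable_const (c := τ * ∫ z, T z)) (fun t ht => by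
        have h2 := inner_le hTc hT0 hT1 hr hτ hg ht.1 ht.2
        calc t * ∫ z, g (x - (t * r) • z) * T z ≤ t * (τ * ∫ z, T z) :=
              mul_le_mul_of_nonneg_left h2 ht.1
          _ ≤ 1 * (τ * ∫ z, T z) := mul_le_mul_of_nonneg_right ht.2 hC
          _ = _ := one_mul _)
    simpa using h1
  · rw [intervalIntegral.integral_undef hi]; exact hC

lemma outer_ge {T : E n → ℝ} (hTc : Continuous T) (hT0 : ∀ z, 0 ≤ T z)
    (hT1 : ∀ z, 1 ≤ ‖z‖ → T z = 0) {g : E n → ℝ} {x : E n} {r τ : ℝ} (hr : 0 < r) (hτ : 0 ≤ τ)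
    (hg : ∀ y ∈ closedBall x r, -τ ≤ g y) :
    -(τ * ∫ z, T z) ≤ ∫ t in (0 : ℝ)..1, t * ∫ z, g (x - (t * r) • z) * T z := by
  have h := outer_le hTc hT0 hT1 (g := fun y => - g y) (x := x) hr hτ
    (fun y hy => by have := hg y hy; show - g y ≤ τ; linarith)
  simp only [neg_mul, integral_neg, mul_neg, intervalIntegral.integral_neg] at h
  linarith

/-- second derivatives -/
lemma d2 {v : E n → ℝ} {x : E n} (hv : DifferentiableAt ℝ (fderiv ℝ v) x) (a b : E n) :
    fderiv ℝ (fun z => fderiv ℝ v z a) x b = fderiv ℝ (fderiv ℝ v) x b a := by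
  have h := (hv.hasFDerivAt.clm_apply (hasFDerivAt_const a x)).fderiv
  rw [h]
  simp

lemma d2_symm {v : E n → ℝ} (hv : ContDiff ℝ 2 v) (x : E n) (a b : E n) :
    fderiv ℝ (fun z => fderiv ℝ v z a) x b = fderiv ℝ (fun z => fderiv ℝ v z b) x a := by
  have hd : DifferentiableAt ℝ (fderiv ℝ v) x :=
    ((hv.fderiv_right (m := 1) (by norm_num)).differentiable (by norm_num)) x
  rw [d2 hd, d2 hd]
  exact (hv.contDiffAt.isSymmSndFDerivAt (by simp)) b a

lemma cd_part {v : E n → ℝ} {m : ℕ∞ω} {k : ℕ∞ω} (hv : ContDiff ℝ k v) (hm : m + 1 ≤ k) (a : E n) :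
    ContDiff ℝ m (fun z => fderiv ℝ v z a) :=
  (hv.fderiv_right hm).clm_apply contDiff_const

lemma lap_part {v : E n → ℝ} (hv : ContDiff ℝ 3 v) (x : E n) (i : Fin n) :
    lap (fun z => fderiv ℝ v z (e i)) x = fderiv ℝ (lap v) x (e i) := by
  have h2 : ∀ a : E n, ContDiff ℝ 2 (fun z => fderiv ℝ v z a) := fun a =>
    cd_part hv (by norm_num) a
  have h1 : ∀ a b : E n, ContDiff ℝ 1 (fun z => fderiv ℝ (fun z => fderiv ℝ v z a) z b) :=
    fun a b => cd_part (h2 a) (by norm_num) b
  unfold lap
  have hs : (fun x : E n => ∑ j, fderiv ℝ (fun z => fderiv ℝ v z (e j)) x (e j)) =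
      (∑ j, fun x : E n => fderiv ℝ (fun z => fderiv ℝ v z (e j)) x (e j)) := by
    funext y; simp
  rw [hs, fderiv_sum (fun j _ => ((h1 (e j) (e j)).differentiable (by norm_num)) x),
    _root_.sum_apply]
  refine Finset.sum_congr rfl fun j _ => ?_
  -- ∂_j ∂_j ∂_i = ∂_i ∂_j ∂_j
  have e1 : (fun z => fderiv ℝ (fun z => fderiv ℝ v z (e i)) z (e j)) =
      (fun z => fderiv ℝ (fun z => fderiv ℝ v z (e j)) z (e i)) := by
    funext z
    exact d2_symm (hv.of_le (by norm_num)) z _ _
  rw [e1]
  exact d2_symm (h2 (e j)) x _ _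

/-- change of variables -/
lemma cov (F : E n → ℝ) (x : E n) {r : ℝ} (hr : 0 < r) :
    ∫ z, F (x - r • z) = (r⁻¹) ^ n * ∫ y, F y := by
  have h := Measure.integral_comp_smul (volume : Measure (E n)) (fun w => F (x - w)) r
  rw [h, integral_sub_left_eq_self F volume x, finrank_euclideanSpace, Fintype.card_fin,
    abs_of_nonneg (by positivity), smul_eq_mul, inv_pow]

theorem mv2i : MV2i := by
  intro h n hn
  obtain ⟨σ, T, A, c, hA, hc, hσ1, hTc, hσ0, hT0, hz, hσint, hσc, hσd, hid⟩ := h n hn
  have hσz : ∀ z, 1 ≤ ‖z‖ → σ z = 0 := fun z h => (hz z h).1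
  have hTz : ∀ z, 1 ≤ ‖z‖ → T z = 0 := fun z h => (hz z h).2
  have hσcs : HasCompactSupport σ := cpt hσz
  set S : ℝ := ∫ z, T z with hS
  have hS0 : 0 ≤ S := integral_nonneg hT0
  have hn0 : (0 : ℝ) < n := by exact_mod_cast hn
  refine ⟨n * (2 * A * 2 ^ n), c, n * (2 * A * 2 ^ n * S + S) + S + 1, by positivity, hc,
    by positivity, ?_⟩
  intro v hv hv0 x r τ hr hτ
  have hv2 : ContDiff ℝ 2 v := hv.of_le (by norm_num)
  have hvc : Continuous v := hv.continuous
  have hint : ∀ (f g : E n → ℝ), Continuous f → Continuous g → HasCompactSupport g →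
      Integrable (fun z => f z * g z) := fun f g hf hg hgc =>
    (hf.mul hg).integrable_of_hasCompactSupport hgc.mul_left
  have hsm : ∀ s : ℝ, Continuous fun z : E n => x - s • z := fun s => by fun_prop
  refine ⟨fun hl => ?_, fun hl => ?_⟩
  · -- mean value
    have h1 := outer_le hTc hT0 hTz (g := lap v) (x := x) hr hτ hl
    have h2 := hid v hv2 x r hr
    have h3 : c * (r⁻¹) ^ n * (∫ y in ball x (3 / 4 * r), v y) ≤ ∫ z, v (x - r • z) * σ z := by
      rw [← integral_indicator measurableSet_ball, mul_assoc, ← cov _ x hr, ← integral_const_mul]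
      refine integral_mono_of_nonneg ?_ (hint _ _ (hvc.comp (hsm r)) hσ1.continuous hσcs) ?_
      · refine Filter.Eventually.of_forall fun z => ?_
        show 0 ≤ c * (ball x (3 / 4 * r)).indicator v (x - r • z)
        exact mul_nonneg hc.le (indicator_nonneg (fun y _ => hv0 y) _)
      · refine Filter.Eventually.of_forall fun z => ?_
        show c * (ball x (3 / 4 * r)).indicator v (x - r • z) ≤ v (x - r • z) * σ z
        by_cases hb : x - r • z ∈ ball x (3 / 4 * r)
        · rw [indicator_of_mem hb, mul_comm]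
          refine mul_le_mul_of_nonneg_left (hσc z ?_) (hv0 _)
          rw [mem_ball, dist_eq_norm, sub_sub_cancel_left, norm_neg, norm_smul, Real.norm_eq_abs,
            abs_of_pos hr] at hb
          nlinarith
        · rw [indicator_of_notMem hb, mul_zero]
          exact mul_nonneg (hv0 _) (hσ0 _)
    have h4 : ∫ z, v (x - r • z) * σ z ≤ v x + r ^ 2 * (τ * S) := by
      rw [h2]
      have := mul_le_mul_of_nonneg_left h1 (sq_nonneg r)
      linarith
    have h5 : r ^ 2 * (τ * S) ≤ (n * (2 * A * 2 ^ n * S + S) + S + 1) * r ^ 2 * τ := by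
      have : S ≤ n * (2 * A * 2 ^ n * S + S) + S + 1 := by
        have : 0 ≤ n * (2 * A * 2 ^ n * S + S) := by positivity
        linarith
      calc r ^ 2 * (τ * S) = S * (r ^ 2 * τ) := by ring
        _ ≤ (n * (2 * A * 2 ^ n * S + S) + S + 1) * (r ^ 2 * τ) :=
          mul_le_mul_of_nonneg_right this (by positivity)
        _ = _ := by ring
    linarith
  · -- gradient
    have h1 := outer_le hTc hT0 hTz (g := lap v) (x := x) hr hτ
      (fun y hy => (le_abs_self _).trans (hl y hy).1)
    have h2 := hid v hv2 x r hr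
    have h4 : ∫ z, v (x - r • z) * σ z ≤ v x + r ^ 2 * (τ * S) := by
      rw [h2]
      have := mul_le_mul_of_nonneg_left h1 (sq_nonneg r)
      linarith
    obtain ⟨ρ, hρ⟩ : ∃ ρ, ρ = r / 2 := ⟨_, rfl⟩
    have hρ0 : 0 < ρ := by rw [hρ]; positivity
    have hpart : ∀ i : Fin n, |fderiv ℝ v x (e i)| ≤
        2 * A * 2 ^ n / r * v x + (2 * A * 2 ^ n * S * r + S * r ^ 2) * τ := by
      intro i
      have hw2 : ContDiff ℝ 2 (fun z => fderiv ℝ v z (e i)) := cd_part hv (by norm_num) _
      have hsub : ∀ y ∈ closedBall x ρ, y ∈ closedBall x r := fun y hy =>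
        closedBall_subset_closedBall (by rw [hρ]; linarith) hy
      have g1 := outer_le hTc hT0 hTz (g := lap (fun z => fderiv ℝ v z (e i))) (x := x) hρ0 hτ
        (fun y hy => by
          rw [lap_part hv]
          exact (le_abs_self _).trans ((hl y (hsub y hy)).2 i))
      have g2 := outer_ge hTc hT0 hTz (g := lap (fun z => fderiv ℝ v z (e i))) (x := x) hρ0 hτ
        (fun y hy => by
          rw [lap_part hv]
          exact (abs_le.1 ((hl y (hsub y hy)).2 i)).1)
      have g3 := hid _ hw2 x ρ hρ0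
      -- integration by parts
      have hGd : ∀ z, HasFDerivAt (fun z : E n => v (x - ρ • z))
          ((fderiv ℝ v (x - ρ • z)).comp (-(ρ • ContinuousLinearMap.id ℝ (E n)))) z := by
        intro z
        have ha : HasFDerivAt (fun z : E n => x - ρ • z)
            (-(ρ • ContinuousLinearMap.id ℝ (E n))) z := by
          exact ((hasFDerivAt_id (𝕜 := ℝ) z).const_smul ρ).const_sub x
        exact ((hv.differentiable (by norm_num)) (x - ρ • z)).hasFDerivAt.comp z ha
      have hGe : ∀ z, fderiv ℝ (fun z : E n => v (x - ρ • z)) z (e i) =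
          -(ρ * fderiv ℝ v (x - ρ • z) (e i)) := by
        intro z
        rw [(hGd z).fderiv]
        simp
      have hwc : Continuous fun z => fderiv ℝ v (x - ρ • z) (e i) :=
        hw2.continuous.comp (hsm ρ)
      have hσdc : Continuous fun z => fderiv ℝ σ z (e i) :=
        (cd_part (m := 0) hσ1 (by norm_num) (e i)).continuous
      have hσds : HasCompactSupport fun z => fderiv ℝ σ z (e i) :=
        hσcs.fderiv_apply ℝ (e i)
      have hibp := integral_mul_fderiv_eq_neg_fderiv_mul_of_integrable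
        (μ := (volume : Measure (E n))) (f := fun z : E n => v (x - ρ • z)) (g := σ) (v := e i)
        (by
          simp only [hGe]
          exact hint _ _ (by fun_prop) hσ1.continuous hσcs)
        (hint _ _ (hvc.comp (hsm ρ)) hσdc hσds)
        (hint _ _ (hvc.comp (hsm ρ)) hσ1.continuous hσcs)
        (fun z _ => (hGd z).differentiableAt)
        (fun z _ => (hσ1.differentiable (by norm_num)) z)
      have hibp2 : ∫ z, v (x - ρ • z) * fderiv ℝ σ z (e i) =
          ρ * ∫ z, fderiv ℝ v (x - ρ • z) (e i) * σ z := by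
        rw [hibp, ← integral_const_mul, ← integral_neg]
        refine integral_congr_ae (Filter.Eventually.of_forall fun z => ?_)
        show -(fderiv ℝ (fun z : E n => v (x - ρ • z)) z (e i) * σ z) = _
        rw [hGe]
        ring
      -- the bound
      have hB1 : |∫ z, v (x - ρ • z) * fderiv ℝ σ z (e i)| ≤
          A * (2 ^ n * ∫ z, v (x - r • z) * σ z) := by
        have hcv : ∫ z, v (x - ρ • z) * σ ((1 / 2 : ℝ) • z) =
            2 ^ n * ∫ z, v (x - r • z) * σ z := by
          have h5 := Measure.integral_comp_smul (volume : Measure (E n))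
            (fun w => v (x - r • w) * σ w) (1 / 2 : ℝ)
          rw [finrank_euclideanSpace, Fintype.card_fin, abs_of_nonneg (by positivity),
            smul_eq_mul] at h5
          have h6 : (((1 / 2 : ℝ) ^ n)⁻¹) = 2 ^ n := by
            rw [one_div, inv_pow, inv_inv]
          rw [h6] at h5
          rw [← h5]
          refine integral_congr_ae (Filter.Eventually.of_forall fun z => ?_)
          show v (x - ρ • z) * σ ((1 / 2 : ℝ) • z) = v (x - r • (1 / 2 : ℝ) • z) * _
          rw [smul_smul, hρ]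
          congr 3
          congr 1
          ring
        rw [← hcv, ← integral_const_mul, ← Real.norm_eq_abs]
        refine norm_integral_le_of_norm_le ?_ (Filter.Eventually.of_forall fun z => ?_)
        · have hcs2 : HasCompactSupport (fun z : E n => σ ((1 / 2 : ℝ) • z)) :=
            HasCompactSupport.intro (isCompact_closedBall (0 : E n) 2) fun z hz => by
              rw [mem_closedBall_zero_iff, not_le] at hz
              refine hσz _ ?_
              rw [norm_smul, Real.norm_eq_abs, abs_of_pos (by norm_num : (0 : ℝ) < 1 / 2)]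
              linarith
          exact (hint _ _ (hvc.comp (hsm ρ)) (hσ1.continuous.comp (by fun_prop)) hcs2).const_mul A
        · rw [Real.norm_eq_abs, abs_mul, abs_of_nonneg (hv0 _)]
          calc v (x - ρ • z) * |fderiv ℝ σ z (e i)|
              ≤ v (x - ρ • z) * (A * σ ((1 / 2 : ℝ) • z)) :=
                mul_le_mul_of_nonneg_left (hσd z i) (hv0 _)
            _ = _ := by ring
      have hB2 : |∫ z, fderiv ℝ v (x - ρ • z) (e i) * σ z| ≤
          2 * A * 2 ^ n / r * (v x + r ^ 2 * (τ * S)) := by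
        rw [hibp2, abs_mul, abs_of_pos hρ0] at hB1
        have h7 : A * (2 ^ n * ∫ z, v (x - r • z) * σ z) ≤
            A * (2 ^ n * (v x + r ^ 2 * (τ * S))) := by
          gcongr
        have h8 := hB1.trans h7
        rw [hρ] at h8 ⊢
        rw [div_mul_eq_mul_div, le_div_iff₀ hr]
        rw [div_mul_eq_mul_div, div_le_iff₀ (by norm_num)] at h8
        linarith
      have hJ : |∫ t in (0 : ℝ)..1, t * ∫ z, lap (fun z => fderiv ℝ v z (e i)) (x - (t * ρ) • z) *
          T z| ≤ τ * S := abs_le.2 ⟨g2, g1⟩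
      have g4 : |fderiv ℝ v x (e i)| ≤ 2 * A * 2 ^ n / r * (v x + r ^ 2 * (τ * S)) +
          ρ ^ 2 * (τ * S) := by
        have g3' : fderiv ℝ v x (e i) = _ := g3
        rw [g3']
        refine (abs_sub _ _).trans (add_le_add hB2 ?_)
        rw [abs_mul, abs_of_nonneg (sq_nonneg ρ)]
        exact mul_le_mul_of_nonneg_left hJ (sq_nonneg ρ)
      refine g4.trans ?_
      have g5 : ρ ^ 2 * (τ * S) ≤ r ^ 2 * (τ * S) := by
        refine mul_le_mul_of_nonneg_right ?_ (by positivity)
        rw [hρ]; nlinarith [sq_nonneg r]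
      have g6 : 2 * A * 2 ^ n / r * (v x + r ^ 2 * (τ * S)) =
          2 * A * 2 ^ n / r * v x + 2 * A * 2 ^ n * S * r * τ := by
        field_simp
      rw [g6]
      linarith
    -- sum
    have hgr : ‖gr v x‖ ≤ ∑ i : Fin n, |fderiv ℝ v x (e i)| := by
      have h9 : gr v x = ∑ i : Fin n, (fderiv ℝ v x (e i)) • (e i : E n) := by
        ext j
        have h10 : (∑ i : Fin n, (fderiv ℝ v x (e i)) • (e i : E n)) j =
            ∑ i : Fin n, fderiv ℝ v x (e i) * Pi.single (M := fun _ => ℝ) i 1 j := by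
          simp
        rw [h10, Finset.sum_eq_single j]
        · simp [gr]
        · intro i _ hij
          rw [Pi.single_eq_of_ne (Ne.symm hij), mul_zero]
        · exact fun hj => absurd (Finset.mem_univ j) hj
      rw [h9]
      refine (norm_sum_le _ _).trans (Finset.sum_le_sum fun i _ => ?_)
      rw [norm_smul, PiLp.norm_single, Real.norm_eq_abs]
      simp
    refine hgr.trans ((Finset.sum_le_sum fun i _ => hpart i).trans ?_)
    rw [Finset.sum_const, Finset.card_univ, Fintype.card_fin, nsmul_eq_mul]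
    have h10 : (n : ℝ) * (2 * A * 2 ^ n / r * v x) = n * (2 * A * 2 ^ n) / r * v x := by ring
    have h11 : (n : ℝ) * ((2 * A * 2 ^ n * S * r + S * r ^ 2) * τ) ≤
        (n * (2 * A * 2 ^ n * S + S) + S + 1) * (r + r ^ 2) * τ := by
      have h12 : (n : ℝ) * (2 * A * 2 ^ n * S * r + S * r ^ 2) ≤
          (n * (2 * A * 2 ^ n * S + S) + S + 1) * (r + r ^ 2) := by
        have a1 : (0 : ℝ) ≤ n * (2 * A * 2 ^ n * S) * r ^ 2 := by positivity
        have a2 : (0 : ℝ) ≤ n * S * r := by positivity
        have a3 : (0 : ℝ) ≤ (S + 1) * (r + r ^ 2) := by positivity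
        nlinarith
      calc (n : ℝ) * ((2 * A * 2 ^ n * S * r + S * r ^ 2) * τ) =
            n * (2 * A * 2 ^ n * S * r + S * r ^ 2) * τ := by ring
        _ ≤ _ := mul_le_mul_of_nonneg_right h12 hτ
    rw [mul_add, h10]
    linarith

end Pool.Agent.N596.TI
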